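import Pool.Agent.Y136.ClassBij.Main

set_option autoImplicit false

namespace Pool.Agent.Results.MP_10b896_lc.ClassBijective

open Pool.Agent.H25R3.RE Pool.Agent.Y136.ClassBij

/-- There are countable Borel equivalence relations `E` on `X` and `F` on `Z` and a Borel map
`q : Z → X` mapping every `F`-class bijectively onto an `E`-class such that `E` is Borel isomorphic
to `ℝE` but `F` does not embed invariantly in `E`, although `F` is `σ`-structurable for every
`L_{ω₁ω}` sentence `σ` for which `E` is `σ`-structurable.  So `E` is not universally
structurable. -/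
theorem result : ∃ (X Z : Type) (_ : MeasurableSpace X) (_ : StandardBorelSpace X)
    (_ : MeasurableSpace Z) (_ : StandardBorelSpace Z) (E : X → X → Prop) (F : Z → Z → Prop)
    (q : Z → X), IsCBER E ∧ IsCBER F ∧ BorelIso (timesR E) E ∧ ClassBijectiveHom F E q ∧
      (∀ (L : Lang) (σ : Form L 0), Structurable E σ → Structurable F σ) ∧ ¬ InvEmb F E ∧
      ¬ UniversallyStructurable E :=
  main_cb

end Pool.Agent.Results.MP_10b896_lc.ClassBijective
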